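import Mathlib
import Pool.Agent.Q18.SC.Stm

/-!
# Jobs CUT, CNT, PAI of project SC
-/

open Classical

namespace Pool.Agent.Q237.SC

open Pool.Agent.Q18.SC

universe u

variable {C : Type u} [Fintype C]

/-- flip one bit -/
noncomputable def flp (c : C) (b : C → Bool) : C → Bool := Function.update b c (!b c)

lemma flp_self (c : C) (b : C → Bool) : flp c b c = !b c := by
  unfold flp
  rw [Function.update_self]

lemma flp_ne {c d : C} (h : d ≠ c) (b : C → Bool) : flp c b d = b d := by
  unfold flp
  rw [Function.update_of_ne h]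

lemma flp_flp (c : C) (b : C → Bool) : flp c (flp c b) = b := by
  funext d
  by_cases h : d = c
  · subst h
    rw [flp_self, flp_self, Bool.not_not]
  · rw [flp_ne h, flp_ne h]

/-- a set which is invariant under a flip that exchanges `P` and its negation -/
lemma half (c : C) (S : Finset (C → Bool)) (P : (C → Bool) → Prop) [DecidablePred P] (hS : ∀ b ∈ S, flp c b ∈ S)
    (hP : ∀ b ∈ S, (P (flp c b) ↔ ¬ P b)) : 2 * (S.filter P).card = S.card := by
  have h1 : (S.filter P).card = (S.filter fun b => ¬ P b).card := by
    apply Finset.card_bij' (fun b _ => flp c b) (fun b _ => flp c b)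
    · intro b hb
      rw [Finset.mem_filter] at hb ⊢
      exact ⟨hS b hb.1, fun h => (hP b hb.1).1 h hb.2⟩
    · intro b hb
      rw [Finset.mem_filter] at hb ⊢
      exact ⟨hS b hb.1, (hP b hb.1).2 hb.2⟩
    · intro b _
      exact flp_flp c b
    · intro b _
      exact flp_flp c b
  have h2 := Finset.card_filter_add_card_filter_not (s := S) P
  omega

/-- two flips -/
lemma quarter (c d : C) (hcd : c ≠ d) (S : Finset (C → Bool)) (hc : ∀ b ∈ S, flp c b ∈ S)
    (hd : ∀ b ∈ S, flp d b ∈ S) (v w : Bool) :
    4 * (S.filter fun b => b c = v ∧ b d = w).card = S.card := by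
  have h1 := half c S (fun b => b c = v) hc (fun b _ => by
    rw [flp_self]
    cases b c <;> cases v <;> simp)
  have h2 := half d (S.filter fun b => b c = v) (fun b => b d = w) (fun b hb => by
    rw [Finset.mem_filter] at hb ⊢
    exact ⟨hd b hb.1, by rw [flp_ne hcd]; exact hb.2⟩) (fun b _ => by
    rw [flp_self]
    cases b d <;> cases w <;> simp)
  rw [Finset.filter_filter] at h2
  omega

theorem cut : S_CUT.{u} := by
  intro C _ J f hf
  have h1 : ∀ c ∈ J, 4 * (Finset.univ.filter fun R : C → Bool => R c = true ∧ R (f c) = false).card =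
      Fintype.card (C → Bool) := by
    intro c hc
    have := quarter c (f c) (hf c hc).symm Finset.univ (fun _ _ => Finset.mem_univ _)
      (fun _ _ => Finset.mem_univ _) true false
    rw [this, Finset.card_univ]
  have h2 : ∑ R : C → Bool, 4 * (J.filter fun c => R c = true ∧ R (f c) = false).card =
      ∑ c ∈ J, 4 * (Finset.univ.filter fun R : C → Bool => R c = true ∧ R (f c) = false).card := by
    rw [← Finset.mul_sum, ← Finset.mul_sum]
    congr 1
    simp only [Finset.card_filter]
    exact Finset.sum_comm
  have h3 : ∑ _R : C → Bool, J.card ≤ ∑ R : C → Bool, 4 * (J.filter fun c => R c = true ∧ R (f c) = false).card := by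
    rw [h2, Finset.sum_congr rfl h1, Finset.sum_const, Finset.sum_const, Finset.card_univ, smul_eq_mul,
      smul_eq_mul, mul_comm]
  obtain ⟨R, _, hR⟩ := Finset.exists_le_of_sum_le Finset.univ_nonempty h3
  refine ⟨_, Finset.filter_subset _ _, hR, fun c hc h => ?_⟩
  rw [Finset.mem_filter] at hc h
  rw [hc.2.2] at h
  exact Bool.false_ne_true h.2.1

theorem cnt : S_CNT.{u} := by
  intro C _ I f
  induction I using Finset.induction_on with
  | empty =>
    intro _
    simp
  | insert c I hc ih =>
    intro hf
    have hfI : ∀ i ∈ I, f i ∉ I := fun i hi h => hf i (Finset.mem_insert_of_mem hi) (Finset.mem_insert_of_mem h)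
    have h1 := ih hfI
    have hne : ∀ i ∈ I, f i ≠ c := fun i hi h => hf i (Finset.mem_insert_of_mem hi) (h ▸ Finset.mem_insert_self c I)
    have hne2 : f c ≠ c := fun h => by
      have := hf c (Finset.mem_insert_self c I)
      rw [h] at this
      exact this (Finset.mem_insert_self c I)
    have hne3 : ∀ i ∈ I, i ≠ c := fun i hi h => hc (h ▸ hi)
    have h2 := half c (Finset.univ.filter (fun b : C → Bool => ∀ c ∈ I, b c = b (f c)))
      (fun b => b c = b (f c)) (fun b hb => by
        rw [Finset.mem_filter] at hb ⊢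
        refine ⟨Finset.mem_univ _, fun i hi => ?_⟩
        rw [flp_ne (hne3 i hi), flp_ne (hne i hi)]
        exact hb.2 i hi) (fun b _ => by
        rw [flp_self, flp_ne hne2]
        cases b c <;> cases b (f c) <;> simp)
    rw [Finset.filter_filter] at h2
    have h3 : (Finset.univ.filter (fun b : C → Bool => ∀ i ∈ insert c I, b i = b (f i))) =
        Finset.univ.filter (fun b : C → Bool => (∀ c ∈ I, b c = b (f c)) ∧ b c = b (f c)) := by
      ext b
      simp only [Finset.mem_filter, Finset.mem_univ, true_and, Finset.forall_mem_insert]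
      exact and_comm
    rw [h3, Finset.card_insert_of_notMem hc, pow_succ]
    calc _ = (2 * (Finset.univ.filter (fun b : C → Bool => (∀ c ∈ I, b c = b (f c)) ∧ b c = b (f c))).card) * 2 ^ I.card := by ring
      _ = _ := by rw [h2]
      _ ≤ _ := h1

theorem pai : S_PAI.{u} := by
  intro C _ I f
  induction I using Finset.induction_on with
  | empty =>
    intro _ _
    simp
  | insert c I hc ih =>
    intro hf hinj
    have hfI : ∀ i ∈ I, f i ∉ I := fun i hi h => hf i (Finset.mem_insert_of_mem hi) (Finset.mem_insert_of_mem h)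
    have h1 := ih hfI (hinj.mono (by simp))
    have hne : ∀ i ∈ I, f i ≠ c := fun i hi h => hf i (Finset.mem_insert_of_mem hi) (h ▸ Finset.mem_insert_self c I)
    have hne2 : f c ≠ c := fun h => by
      have := hf c (Finset.mem_insert_self c I)
      rw [h] at this
      exact this (Finset.mem_insert_self c I)
    have hne3 : ∀ i ∈ I, i ≠ c := fun i hi h => hc (h ▸ hi)
    have hne4 : ∀ i ∈ I, i ≠ f c := fun i hi h =>
      hf c (Finset.mem_insert_self c I) (h ▸ Finset.mem_insert_of_mem hi)
    have hne5 : ∀ i ∈ I, f i ≠ f c := fun i hi h => by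
      have := hinj (by simp [hi]) (by simp) h
      exact hne3 i hi this
    have h2 := quarter c (f c) hne2.symm (Finset.univ.filter (fun b : C → Bool => ∀ c ∈ I, ¬ (b c = true ∧ b (f c) = true)))
      (fun b hb => by
        rw [Finset.mem_filter] at hb ⊢
        refine ⟨Finset.mem_univ _, fun i hi => ?_⟩
        rw [flp_ne (hne3 i hi), flp_ne (hne i hi)]
        exact hb.2 i hi) (fun b hb => by
        rw [Finset.mem_filter] at hb ⊢
        refine ⟨Finset.mem_univ _, fun i hi => ?_⟩
        rw [flp_ne (hne4 i hi), flp_ne (hne5 i hi)]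
        exact hb.2 i hi) true true
    have h3 := Finset.card_filter_add_card_filter_not
      (s := Finset.univ.filter (fun b : C → Bool => ∀ c ∈ I, ¬ (b c = true ∧ b (f c) = true)))
      (fun b => b c = true ∧ b (f c) = true)
    have h4 : (Finset.univ.filter (fun b : C → Bool => ∀ i ∈ insert c I, ¬ (b i = true ∧ b (f i) = true))) =
        (Finset.univ.filter (fun b : C → Bool => ∀ c ∈ I, ¬ (b c = true ∧ b (f c) = true))).filter
          (fun b => ¬ (b c = true ∧ b (f c) = true)) := by
      ext b
      simp only [Finset.mem_filter, Finset.mem_univ, true_and, Finset.forall_mem_insert]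
      exact and_comm
    rw [h4, Finset.card_insert_of_notMem hc, pow_succ, pow_succ]
    obtain ⟨X, hX⟩ : ∃ X, X = ((Finset.univ.filter (fun b : C → Bool => ∀ c ∈ I, ¬ (b c = true ∧ b (f c) = true))).filter
          (fun b => ¬ (b c = true ∧ b (f c) = true))).card := ⟨_, rfl⟩
    obtain ⟨Y, hY⟩ : ∃ Y, Y = (Finset.univ.filter (fun b : C → Bool => ∀ c ∈ I, ¬ (b c = true ∧ b (f c) = true))).card := ⟨_, rfl⟩
    rw [← hX] at h3 ⊢
    rw [← hY] at h1 h2 h3
    have h5 : 4 * X = 3 * Y := by omega
    calc X * (4 ^ I.card * 4) = (4 * X) * 4 ^ I.card := by ring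
      _ = 3 * (Y * 4 ^ I.card) := by rw [h5]; ring
      _ ≤ 3 * (3 ^ I.card * 2 ^ Fintype.card C) := by gcongr
      _ = _ := by ring

end Pool.Agent.Q237.SC
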