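import Mathlib
import Pool.Agent.Q237.SC.Flip

/-!
# Jobs FIN, COM and UNI of project SC: general lemmas
-/

open Classical

namespace Pool.Agent.Q237.SC

open Pool.Agent.Q18.SC

universe u

/-- `cnt` without decidability instances -/
lemma cnt' {C : Type u} [Fintype C] (I : Finset C) (f : C → C) (h : ∀ c ∈ I, f c ∉ I)
    (S : Finset (C → Bool)) (hS : ∀ b ∈ S, ∀ c ∈ I, b c = b (f c)) :
    S.card * 2 ^ I.card ≤ 2 ^ Fintype.card C := by
  refine le_trans ?_ (cnt C I f h)
  gcongr
  intro b hb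
  rw [Finset.mem_filter]
  exact ⟨Finset.mem_univ _, hS b hb⟩

/-- a family of equations `b (a p) = b (a' p)` with many different left sides -/
lemma gen1 {C : Type u} [Fintype C] [DecidableEq C] {ι : Type*} (P : Finset ι) (a a' : ι → C)
    (hne : ∀ p ∈ P, a p ≠ a' p) (S : Finset (C → Bool)) (hS : ∀ b ∈ S, ∀ p ∈ P, b (a p) = b (a' p)) :
    (S.card : ℝ) ≤ (2 : ℝ) ^ (-(((P.image a).card : ℝ) / 4)) * (2 : ℝ) ^ (Fintype.card C) := by
  have hch : ∀ c : C, ∃ d : C, c ∈ P.image a → ∃ p ∈ P, a p = c ∧ a' p = d := by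
    intro c
    by_cases h : c ∈ P.image a
    · obtain ⟨p, hp, hpc⟩ := Finset.mem_image.1 h
      exact ⟨a' p, fun _ => ⟨p, hp, hpc, rfl⟩⟩
    · exact ⟨c, fun h' => absurd h' h⟩
  choose f hf using hch
  obtain ⟨I, hIJ, hcard, hoff⟩ := cut C (P.image a) f (fun c hc h => by
    obtain ⟨p, hp, h1, h2⟩ := hf c hc
    exact hne p hp (by rw [h1, h2, h]))
  have h2 : S.card * 2 ^ I.card ≤ 2 ^ Fintype.card C := by
    refine cnt' I f hoff S fun b hb c hc => ?_
    obtain ⟨p, hp, h3, h4⟩ := hf c (hIJ hc)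
    rw [← h4]
    conv_lhs => rw [← h3]
    exact hS b hb p hp
  have h3 : (S.card : ℝ) * (2 : ℝ) ^ (I.card : ℝ) ≤ (2 : ℝ) ^ (Fintype.card C) := by
    rw [Real.rpow_natCast]
    exact_mod_cast h2
  have h4 : (2 : ℝ) ^ (((P.image a).card : ℝ) / 4) ≤ (2 : ℝ) ^ (I.card : ℝ) := by
    apply Real.rpow_le_rpow_of_exponent_le (by norm_num)
    have : ((P.image a).card : ℝ) ≤ 4 * I.card := by exact_mod_cast hcard
    linarith
  have h5 : (0 : ℝ) < (2 : ℝ) ^ (((P.image a).card : ℝ) / 4) := by positivity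
  rw [Real.rpow_neg (by norm_num), ← div_eq_inv_mul, le_div_iff₀ h5]
  calc (S.card : ℝ) * (2 : ℝ) ^ (((P.image a).card : ℝ) / 4) ≤ (S.card : ℝ) * (2 : ℝ) ^ (I.card : ℝ) := by gcongr
    _ ≤ _ := h3

/-- `pai` without decidability instances -/
lemma pai' {C : Type u} [Fintype C] (I : Finset C) (f : C → C) (h : ∀ c ∈ I, f c ∉ I)
    (hinj : Set.InjOn f (I : Set C)) (S : Finset (C → Bool))
    (hS : ∀ b ∈ S, ∀ c ∈ I, ¬ (b c = true ∧ b (f c) = true)) :
    S.card * 4 ^ I.card ≤ 3 ^ I.card * 2 ^ Fintype.card C := by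
  refine le_trans ?_ (pai C I f h hinj)
  gcongr
  intro b hb
  rw [Finset.mem_filter]
  exact ⟨Finset.mem_univ _, hS b hb⟩

/-- a linear function is below an exponential one -/
lemma lin_le {a : ℝ} (ha : 0 < a) : ∃ n₀ : ℕ, ∀ n : ℕ, n₀ ≤ n → (n : ℝ) + 1 ≤ (2 : ℝ) ^ (a * n) := by
  have hl : 0 < Real.log 2 := Real.log_pos (by norm_num)
  obtain ⟨n₀, hn₀⟩ := exists_nat_ge (2 / (a * Real.log 2) ^ 2)
  refine ⟨n₀, fun n hn => ?_⟩
  have h1 : 2 / (a * Real.log 2) ^ 2 ≤ n := hn₀.trans (by exact_mod_cast hn)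
  have hpos : 0 < (a * Real.log 2) ^ 2 := by positivity
  rw [div_le_iff₀ hpos] at h1
  have hn0 : (0 : ℝ) ≤ n := Nat.cast_nonneg n
  have h2 : (2 : ℝ) ^ (a * n) = Real.exp (a * Real.log 2 * n) := by
    rw [Real.rpow_def_of_pos (by norm_num)]
    congr 1
    ring
  rw [h2]
  have h3 := Real.quadratic_le_exp_of_nonneg (x := a * Real.log 2 * n) (by positivity)
  have h4 : (n : ℝ) ≤ (a * Real.log 2 * n) ^ 2 / 2 := by
    have : (a * Real.log 2 * n) ^ 2 / 2 = n * (n * (a * Real.log 2) ^ 2) / 2 := by ring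
    rw [this]
    nlinarith
  have h5 : 0 ≤ a * Real.log 2 * n := by positivity
  linarith

section group

variable {G : Type u} [Group G] [Fintype G]

lemma q_fiber (t : G) (S : Finset G) : (S.filter fun u => q u = q t).card ≤ 2 := by
  have h : (S.filter fun u => q u = q t) ⊆ {t, t⁻¹} := by
    intro u hu
    rw [Finset.mem_filter, q_eq_iff] at hu
    rw [Finset.mem_insert, Finset.mem_singleton]
    exact hu.2
  exact (Finset.card_le_card h).trans Finset.card_le_two

lemma card_image_q (S : Finset G) : S.card ≤ 2 * (S.image q).card := by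
  apply Finset.card_le_mul_card_image
  intro c hc
  obtain ⟨t, _, rfl⟩ := Finset.mem_image.1 hc
  exact q_fiber t S

/-- the elements at which `q u ≠ q (u h)` -/
lemma card_U (h1 : S_MIL.{u}) {h : G} (hh : h ≠ 1) :
    Fintype.card G ≤ 4 * (Finset.univ.filter fun u : G => q u ≠ q (u * h)).card := by
  have h2 := h1 G h hh
  have h3 : (Finset.univ.filter fun u : G => q u = q (u * h)).card ≤
      (Finset.univ.filter fun v : G => v * v = h).card := by
    apply Finset.card_le_card_of_injOn (fun u => u * h)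
    · intro u hu
      rw [Finset.coe_filter, Set.mem_setOf_eq, q_eq_iff] at hu
      rw [Finset.coe_filter, Set.mem_setOf_eq]
      refine ⟨Finset.mem_univ _, ?_⟩
      rcases hu.2 with h4 | h4
      · exact absurd (left_eq_mul.1 h4) hh
      · have h5 : u * h = u⁻¹ := inv_eq_iff_eq_inv.1 h4.symm
        calc u * h * (u * h) = u⁻¹ * (u * h) := congrArg (fun t => t * (u * h)) h5
          _ = h := by group
    · intro u _ v _ huv
      exact mul_right_cancel huv
  have h4 := Finset.card_filter_add_card_filter_not (s := (Finset.univ : Finset G)) (fun u : G => q u = q (u * h))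
  rw [Finset.card_univ] at h4
  have h5 : (Finset.univ.filter fun u : G => ¬ q u = q (u * h)).card =
      (Finset.univ.filter fun u : G => q u ≠ q (u * h)).card := by
    congr 1
  omega

end group

end Pool.Agent.Q237.SC
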