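import Mathlib
import Pool.Agent.Q237.SC.Gen

/-!
# Jobs FIN and COM of project SC
-/

open Classical

namespace Pool.Agent.Q237.SC

open Pool.Agent.Q18.SC

universe u

/-- the number of small subsets -/
lemma small_sets {G : Type u} [Fintype G] :
    ((Finset.univ.filter fun W : Finset G => (W.card : ℝ) ≤ (Fintype.card G : ℝ) / 1024).card : ℝ) ≤
      (2 : ℝ) ^ ((Fintype.card G : ℝ) / 64) := by
  obtain ⟨n, hn⟩ : ∃ n, n = Fintype.card G := ⟨_, rfl⟩
  rw [← hn]
  have h1 := Fintype.sum_pow_mul_eq_add_pow G (1 / 256 : ℝ) 1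
  simp only [one_pow, mul_one] at h1
  rw [← hn] at h1
  have h2 : ((Finset.univ.filter fun W : Finset G => (W.card : ℝ) ≤ (n : ℝ) / 1024).card : ℝ) *
      (1 / 256 : ℝ) ^ ((n : ℝ) / 1024) ≤ ∑ W : Finset G, (1 / 256 : ℝ) ^ W.card := by
    calc _ = ∑ W ∈ Finset.univ.filter fun W : Finset G => (W.card : ℝ) ≤ (n : ℝ) / 1024,
          (1 / 256 : ℝ) ^ ((n : ℝ) / 1024) := by rw [Finset.sum_const, nsmul_eq_mul]
      _ ≤ ∑ W ∈ Finset.univ.filter fun W : Finset G => (W.card : ℝ) ≤ (n : ℝ) / 1024,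
          (1 / 256 : ℝ) ^ W.card := by
          apply Finset.sum_le_sum
          intro W hW
          rw [Finset.mem_filter] at hW
          rw [← Real.rpow_natCast]
          exact Real.rpow_le_rpow_of_exponent_ge (by norm_num) (by norm_num) hW.2
      _ ≤ _ := by
          apply Finset.sum_le_sum_of_subset_of_nonneg (Finset.filter_subset _ _)
          intro W _ _
          positivity
  rw [h1] at h2
  have h3 : (1 / 256 : ℝ) ^ ((n : ℝ) / 1024) = (2 : ℝ) ^ (-((n : ℝ) / 128)) := by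
    rw [show (1 / 256 : ℝ) = (2 : ℝ) ^ (-8 : ℝ) by
      rw [Real.rpow_neg (by norm_num), show (8 : ℝ) = ((8 : ℕ) : ℝ) by norm_num, Real.rpow_natCast]; norm_num,
      ← Real.rpow_mul (by norm_num)]
    congr 1
    ring
  have h4 : ((1 / 256 : ℝ) + 1) ^ n ≤ (2 : ℝ) ^ ((n : ℝ) / 128) := by
    have h5 : ((1 / 256 : ℝ) + 1) ≤ (2 : ℝ) ^ ((1 : ℝ) / 128) := by
      have h6 : ((1 / 256 : ℝ) + 1) ^ (128 : ℝ) ≤ 2 := by
        have h7 : (1 / 256 : ℝ) + 1 ≤ Real.exp (1 / 256) := Real.add_one_le_exp _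
        calc ((1 / 256 : ℝ) + 1) ^ (128 : ℝ) ≤ (Real.exp (1 / 256)) ^ (128 : ℝ) := by gcongr
          _ = Real.exp (1 / 2) := by rw [← Real.exp_mul]; norm_num
          _ ≤ 2 := by
            have h8 : Real.exp (1 / 2) ^ 2 ≤ 2 ^ 2 := by
              rw [← Real.exp_nat_mul]
              have : ((2 : ℕ) : ℝ) * (1 / 2) = 1 := by norm_num
              rw [this]
              linarith [Real.exp_one_lt_d9]
            exact le_of_sq_le_sq h8 (by norm_num)
      calc ((1 / 256 : ℝ) + 1) = (((1 / 256 : ℝ) + 1) ^ (128 : ℝ)) ^ ((1 : ℝ) / 128) := by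
            rw [← Real.rpow_mul (by norm_num)]; norm_num
        _ ≤ _ := by gcongr
    calc ((1 / 256 : ℝ) + 1) ^ n ≤ ((2 : ℝ) ^ ((1 : ℝ) / 128)) ^ n := by gcongr
      _ = _ := by
        rw [← Real.rpow_natCast, ← Real.rpow_mul (by norm_num)]
        congr 1
        ring
  rw [h3, Real.rpow_neg (by norm_num), ← div_eq_mul_inv, div_le_iff₀ (by positivity)] at h2
  calc _ ≤ ((1 / 256 : ℝ) + 1) ^ n * (2 : ℝ) ^ ((n : ℝ) / 128) := h2
    _ ≤ (2 : ℝ) ^ ((n : ℝ) / 128) * (2 : ℝ) ^ ((n : ℝ) / 128) := by gcongr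
    _ = _ := by
      rw [← Real.rpow_add (by norm_num)]
      congr 1
      ring

/-- JOB FIN -/
theorem fin (h1 : S_MIL.{u}) : S_FIN.{u} := by
  obtain ⟨n₀, hn₀⟩ := lin_le (a := 1 / 140) (by norm_num)
  refine ⟨1 / 140, by norm_num, n₀, fun G _ _ hG => ?_⟩
  obtain ⟨n, hn⟩ : ∃ n, n = Fintype.card G := ⟨_, rfl⟩
  rw [← hn] at hG ⊢
  -- union over h and W
  let F : G × Finset G → Finset (Cls G → Bool) := fun p => if p.1 ≠ 1 ∧ (p.2.card : ℝ) ≤ (n : ℝ) / 1024 then
    Finset.univ.filter (fun b : Cls G → Bool => ∀ u, u ∉ p.2 → b (q u) = b (q (u * p.1))) else ∅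
  have hsub : (Finset.univ.filter (fun b : Cls G → Bool => ∃ h : G, h ≠ 1 ∧
      ((Finset.univ.filter (fun u : G => b (q u) ≠ b (q (u * h)))).card : ℝ) ≤ (n : ℝ) / 1024)) ⊆
      (Finset.univ ×ˢ (Finset.univ.filter fun W : Finset G => (W.card : ℝ) ≤ (n : ℝ) / 1024)).biUnion F := by
    intro b hb
    rw [Finset.mem_filter] at hb
    obtain ⟨_, h, hh, hW⟩ := hb
    rw [Finset.mem_biUnion]
    refine ⟨(h, Finset.univ.filter (fun u : G => b (q u) ≠ b (q (u * h)))), ?_, ?_⟩
    · rw [Finset.mem_product, Finset.mem_filter]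
      exact ⟨Finset.mem_univ _, Finset.mem_univ _, hW⟩
    · change b ∈ (if _ then _ else _)
      rw [if_pos ⟨hh, hW⟩, Finset.mem_filter]
      refine ⟨Finset.mem_univ _, fun u hu => ?_⟩
      rw [Finset.mem_filter] at hu
      by_contra hcon
      exact hu ⟨Finset.mem_univ _, hcon⟩
  have hF : ∀ p, ((F p).card : ℝ) ≤ (2 : ℝ) ^ (-((n : ℝ) / 33)) * (2 : ℝ) ^ (Fintype.card (Cls G)) := by
    rintro ⟨h, W⟩
    change (((if h ≠ 1 ∧ (W.card : ℝ) ≤ (n : ℝ) / 1024 then
      Finset.univ.filter (fun b : Cls G → Bool => ∀ u, u ∉ W → b (q u) = b (q (u * h))) else ∅ : Finset (Cls G → Bool))).card : ℝ) ≤ _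
    split_ifs with hcase
    · obtain ⟨hh, hW⟩ := hcase
      have h2 := gen1 ((Finset.univ.filter fun u : G => q u ≠ q (u * h)) \ W) q (fun u => q (u * h))
        (fun u hu => by
          rw [Finset.mem_sdiff, Finset.mem_filter] at hu
          exact hu.1.2)
        (Finset.univ.filter (fun b : Cls G → Bool => ∀ u, u ∉ W → b (q u) = b (q (u * h))))
        (fun b hb u hu => by
          rw [Finset.mem_filter] at hb
          rw [Finset.mem_sdiff] at hu
          exact hb.2 u hu.2)
      refine h2.trans ?_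
      refine mul_le_mul_of_nonneg_right (Real.rpow_le_rpow_of_exponent_le (by norm_num) ?_) (by positivity)
      have h3 := card_U h1 hh
      have h4 := card_image_q ((Finset.univ.filter fun u : G => q u ≠ q (u * h)) \ W)
      have h5 := Finset.le_card_sdiff W (Finset.univ.filter fun u : G => q u ≠ q (u * h))
      rw [← hn] at h3
      have h3' : (n : ℝ) ≤ 4 * ((Finset.univ.filter fun u : G => q u ≠ q (u * h)).card : ℝ) := by exact_mod_cast h3
      have h4' : ((((Finset.univ.filter fun u : G => q u ≠ q (u * h)) \ W).card : ℕ) : ℝ) ≤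
          2 * ((((Finset.univ.filter fun u : G => q u ≠ q (u * h)) \ W).image q).card : ℝ) := by exact_mod_cast h4
      have h5' : ((Finset.univ.filter fun u : G => q u ≠ q (u * h)).card : ℝ) ≤
          (((Finset.univ.filter fun u : G => q u ≠ q (u * h)) \ W).card : ℝ) + W.card := by
        have : (Finset.univ.filter fun u : G => q u ≠ q (u * h)).card ≤
          ((Finset.univ.filter fun u : G => q u ≠ q (u * h)) \ W).card + W.card := by omega
        exact_mod_cast this
      have hn0 : (0 : ℝ) ≤ n := Nat.cast_nonneg n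
      linarith
    · rw [Finset.card_empty]
      push_cast
      positivity
  have h2 : (((Finset.univ ×ˢ (Finset.univ.filter fun W : Finset G => (W.card : ℝ) ≤ (n : ℝ) / 1024)).biUnion F).card : ℝ) ≤
      (n : ℝ) * (2 : ℝ) ^ ((n : ℝ) / 64) * ((2 : ℝ) ^ (-((n : ℝ) / 33)) * (2 : ℝ) ^ (Fintype.card (Cls G))) := by
    calc (((Finset.univ ×ˢ (Finset.univ.filter fun W : Finset G => (W.card : ℝ) ≤ (n : ℝ) / 1024)).biUnion F).card : ℝ)
        ≤ ((∑ p ∈ (Finset.univ ×ˢ (Finset.univ.filter fun W : Finset G => (W.card : ℝ) ≤ (n : ℝ) / 1024)), (F p).card : ℕ) : ℝ) := by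
          exact_mod_cast Finset.card_biUnion_le
      _ = ∑ p ∈ (Finset.univ ×ˢ (Finset.univ.filter fun W : Finset G => (W.card : ℝ) ≤ (n : ℝ) / 1024)), ((F p).card : ℝ) := by
          push_cast; rfl
      _ ≤ ∑ _p ∈ (Finset.univ ×ˢ (Finset.univ.filter fun W : Finset G => (W.card : ℝ) ≤ (n : ℝ) / 1024)),
          ((2 : ℝ) ^ (-((n : ℝ) / 33)) * (2 : ℝ) ^ (Fintype.card (Cls G))) := Finset.sum_le_sum fun p _ => hF p
      _ = (((Finset.univ ×ˢ (Finset.univ.filter fun W : Finset G => (W.card : ℝ) ≤ (n : ℝ) / 1024)) : Finset (G × Finset G)).card : ℝ) *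
          ((2 : ℝ) ^ (-((n : ℝ) / 33)) * (2 : ℝ) ^ (Fintype.card (Cls G))) := by rw [Finset.sum_const, nsmul_eq_mul]
      _ ≤ _ := by
          rw [Finset.card_product, Finset.card_univ, ← hn]
          push_cast
          have := small_sets (G := G)
          rw [← hn] at this
          gcongr
  have h3 := hn₀ n hG
  calc _ ≤ (((Finset.univ ×ˢ (Finset.univ.filter fun W : Finset G => (W.card : ℝ) ≤ (n : ℝ) / 1024)).biUnion F).card : ℝ) := by
        exact_mod_cast Finset.card_le_card hsub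
    _ ≤ _ := h2
    _ ≤ ((2 : ℝ) ^ (1 / 140 * (n : ℝ))) * (2 : ℝ) ^ ((n : ℝ) / 64) * ((2 : ℝ) ^ (-((n : ℝ) / 33)) * (2 : ℝ) ^ (Fintype.card (Cls G))) := by
        gcongr
        linarith
    _ = (2 : ℝ) ^ (1 / 140 * (n : ℝ) + (n : ℝ) / 64 + -((n : ℝ) / 33)) * (2 : ℝ) ^ (Fintype.card (Cls G)) := by
        rw [Real.rpow_add (by norm_num), Real.rpow_add (by norm_num)]
        ring
    _ ≤ _ := by
        gcongr
        · norm_num
        have hn0 : (0 : ℝ) ≤ n := Nat.cast_nonneg n
        linarith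

/-- JOB COM -/
theorem com (h1 : S_MIL.{u}) : S_COM.{u} := by
  obtain ⟨n₀, hn₀⟩ := lin_le (a := 1 / 320) (by norm_num)
  refine ⟨1 / 320, by norm_num, n₀, fun G _ _ hG => ?_⟩
  obtain ⟨n, hn⟩ : ∃ n, n = Fintype.card G := ⟨_, rfl⟩
  rw [← hn] at hG ⊢
  let F : G → Finset (Cls G → Bool) := fun g => Finset.univ.filter (fun b : Cls G → Bool =>
    ∀ v : G, ¬ (b (q v) = true ∧ b (q (v * g)) = true))
  have hsub : (Finset.univ.filter (fun b : Cls G → Bool => ∃ g : G, ∀ v : G,
      ¬ (b (q v) = true ∧ b (q (v * g)) = true))) ⊆ Finset.univ.biUnion F := by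
    intro b hb
    rw [Finset.mem_filter] at hb
    obtain ⟨_, g, hg⟩ := hb
    rw [Finset.mem_biUnion]
    refine ⟨g, Finset.mem_univ _, ?_⟩
    rw [Finset.mem_filter]
    exact ⟨Finset.mem_univ _, hg⟩
  have hC : (n : ℝ) ≤ 2 * Fintype.card (Cls G) := by
    have h2 := card_image_q (Finset.univ : Finset G)
    rw [Finset.card_univ, ← hn] at h2
    have h3 := h2.trans (Nat.mul_le_mul_left 2 (Finset.card_le_univ _))
    exact_mod_cast h3
  have hn0 : (0 : ℝ) ≤ n := Nat.cast_nonneg n
  have hF : ∀ g, ((F g).card : ℝ) ≤ (2 : ℝ) ^ (-((n : ℝ) / 160)) * (2 : ℝ) ^ (Fintype.card (Cls G)) := by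
    intro g
    by_cases hg : g = 1
    · have h2 : F g ⊆ {fun _ => false} := by
        intro b hb
        rw [Finset.mem_filter] at hb
        rw [Finset.mem_singleton]
        funext c
        obtain ⟨v, rfl⟩ := Quotient.exists_rep c
        have h3 := hb.2 v
        rw [hg, mul_one, and_self, Bool.not_eq_true] at h3
        exact h3
      have h3 : ((F g).card : ℝ) ≤ 1 := by
        exact_mod_cast (Finset.card_le_card h2)
      refine h3.trans ?_
      rw [← Real.rpow_natCast, ← Real.rpow_add (by norm_num)]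
      apply Real.one_le_rpow (by norm_num)
      linarith
    · -- the equations
      have hch : ∀ c : Cls G, ∃ v : G, c ∈ (Finset.univ.filter fun u : G => q u ≠ q (u * g)).image q →
          v ∈ (Finset.univ.filter fun u : G => q u ≠ q (u * g)) ∧ q v = c := by
        intro c
        by_cases h : c ∈ (Finset.univ.filter fun u : G => q u ≠ q (u * g)).image q
        · obtain ⟨v, hv, hvc⟩ := Finset.mem_image.1 h
          exact ⟨v, fun _ => ⟨hv, hvc⟩⟩
        · exact ⟨1, fun h' => absurd h' h⟩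
      choose w hw using hch
      obtain ⟨I, hIJ, hcard, hoff⟩ := cut (Cls G) ((Finset.univ.filter fun u : G => q u ≠ q (u * g)).image q)
        (fun c => q (w c * g)) (fun c hc h => by
          obtain ⟨h2, h3⟩ := hw c hc
          rw [Finset.mem_filter] at h2
          exact h2.2 (h3.trans h.symm))
      -- injective part
      have hfib : ∀ e ∈ I.image (fun c => q (w c * g)), (I.filter fun c => q (w c * g) = e).card ≤ 2 := by
        intro e he
        obtain ⟨t, rfl⟩ := Quotient.exists_rep e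
        have hsub : (I.filter fun c => q (w c * g) = q t) ⊆ {q (t * g⁻¹), q (t⁻¹ * g⁻¹)} := by
          intro c hc
          rw [Finset.mem_filter] at hc
          have h2 := (hw c (hIJ hc.1)).2
          rw [Finset.mem_insert, Finset.mem_singleton]
          rcases (q_eq_iff _ _).1 hc.2 with h3 | h3
          · left
            rw [← h2, ← h3, mul_inv_cancel_right]
          · right
            rw [← h2, ← h3, mul_inv_cancel_right]
        exact (Finset.card_le_card hsub).trans Finset.card_le_two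
      have h4 : I.card ≤ 2 * (I.image (fun c => q (w c * g))).card := Finset.card_le_mul_card_image _ _ hfib
      have hch2 : ∀ e : Cls G, ∃ c : Cls G, e ∈ I.image (fun c => q (w c * g)) → c ∈ I ∧ q (w c * g) = e := by
        intro e
        by_cases h : e ∈ I.image (fun c => q (w c * g))
        · obtain ⟨c, hc, hce⟩ := Finset.mem_image.1 h
          exact ⟨c, fun _ => ⟨hc, hce⟩⟩
        · exact ⟨e, fun h' => absurd h' h⟩
      choose r hr using hch2
      have hrI : ∀ c ∈ (I.image (fun c => q (w c * g))).image r, c ∈ I := by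
        intro c hc
        obtain ⟨e, he, rfl⟩ := Finset.mem_image.1 hc
        exact (hr e he).1
      have h5 : ((I.image (fun c => q (w c * g))).image r).card = (I.image (fun c => q (w c * g))).card := by
        apply Finset.card_image_of_injOn
        intro e he e' he' h
        rw [Finset.mem_coe] at he he'
        rw [← (hr e he).2, ← (hr e' he').2]
        have h' : r e = r e' := h
        rw [h']
      have h6 := pai' ((I.image (fun c => q (w c * g))).image r) (fun c => q (w c * g))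
        (fun c hc h => hoff c (hrI c hc) (hrI _ h)) (by
          intro c hc c' hc' h
          rw [Finset.mem_coe] at hc hc'
          obtain ⟨e, he, rfl⟩ := Finset.mem_image.1 hc
          obtain ⟨e', he', rfl⟩ := Finset.mem_image.1 hc'
          have h' : q (w (r e) * g) = q (w (r e') * g) := h
          rw [(hr e he).2, (hr e' he').2] at h'
          rw [h']) (F g) (fun b hb c hc => by
          rw [Finset.mem_filter] at hb
          have h8 := hb.2 (w c)
          rw [(hw c (hIJ (hrI c hc))).2] at h8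
          exact h8)
      obtain ⟨k, hk⟩ : ∃ k, k = ((I.image (fun c => q (w c * g))).image r).card := ⟨_, rfl⟩
      rw [← hk] at h6
      have h8 : ((F g).card : ℝ) * 4 ^ k ≤ 3 ^ k * 2 ^ Fintype.card (Cls G) := by exact_mod_cast h6
      have h9 : ((F g).card : ℝ) ≤ (3 / 4 : ℝ) ^ k * 2 ^ Fintype.card (Cls G) := by
        rw [div_pow, div_mul_eq_mul_div, le_div_iff₀ (by positivity)]
        exact h8
      refine h9.trans ?_
      gcongr
      have h10 : (3 / 4 : ℝ) ≤ (2 : ℝ) ^ (-(2 / 5 : ℝ)) := by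
        have h11 : (3 / 4 : ℝ) ^ (5 : ℝ) ≤ (2 : ℝ) ^ (-2 : ℝ) := by
          rw [show (5 : ℝ) = ((5 : ℕ) : ℝ) by norm_num, Real.rpow_natCast, Real.rpow_neg (by norm_num),
            show (2 : ℝ) ^ (2 : ℝ) = 4 by
              rw [show (2 : ℝ) ^ (2 : ℝ) = (2 : ℝ) ^ ((2 : ℕ) : ℝ) by norm_num, Real.rpow_natCast]; norm_num]
          norm_num
        calc (3 / 4 : ℝ) = ((3 / 4 : ℝ) ^ (5 : ℝ)) ^ (1 / 5 : ℝ) := by
              rw [← Real.rpow_mul (by norm_num)]; norm_num
          _ ≤ ((2 : ℝ) ^ (-2 : ℝ)) ^ (1 / 5 : ℝ) := by gcongr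
          _ = _ := by rw [← Real.rpow_mul (by norm_num)]; norm_num
      calc (3 / 4 : ℝ) ^ k ≤ ((2 : ℝ) ^ (-(2 / 5 : ℝ))) ^ k := by gcongr
        _ = (2 : ℝ) ^ (-(2 / 5 : ℝ) * k) := by rw [Real.rpow_mul (by norm_num), Real.rpow_natCast]
        _ ≤ _ := by
          apply Real.rpow_le_rpow_of_exponent_le (by norm_num)
          have h12 := card_U h1 hg
          have h13 := card_image_q (Finset.univ.filter fun u : G => q u ≠ q (u * g))
          rw [h5] at hk
          rw [← hk] at h4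
          rw [← hn] at h12
          have h14 : n ≤ 64 * k := by omega
          have h15 : (n : ℝ) ≤ 64 * k := by exact_mod_cast h14
          linarith
  have h3 := hn₀ n hG
  calc _ ≤ ((Finset.univ.biUnion F).card : ℝ) := by exact_mod_cast Finset.card_le_card hsub
    _ ≤ ((∑ g, (F g).card : ℕ) : ℝ) := by exact_mod_cast Finset.card_biUnion_le
    _ = ∑ g, ((F g).card : ℝ) := by push_cast; rfl
    _ ≤ ∑ _g : G, ((2 : ℝ) ^ (-((n : ℝ) / 160)) * (2 : ℝ) ^ (Fintype.card (Cls G))) := Finset.sum_le_sum fun g _ => hF g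
    _ = (n : ℝ) * ((2 : ℝ) ^ (-((n : ℝ) / 160)) * (2 : ℝ) ^ (Fintype.card (Cls G))) := by
        rw [Finset.sum_const, Finset.card_univ, nsmul_eq_mul, hn]
    _ ≤ ((2 : ℝ) ^ (1 / 320 * (n : ℝ))) * ((2 : ℝ) ^ (-((n : ℝ) / 160)) * (2 : ℝ) ^ (Fintype.card (Cls G))) := by
        gcongr
        linarith
    _ = (2 : ℝ) ^ (1 / 320 * (n : ℝ) + -((n : ℝ) / 160)) * (2 : ℝ) ^ (Fintype.card (Cls G)) := by
        rw [Real.rpow_add (by norm_num)]
        ring
    _ ≤ _ := by
        gcongr
        · norm_num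
        linarith

end Pool.Agent.Q237.SC
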