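import Mathlib
import Pool.Agent.Q237.SC.Gen

/-!
# Job UNI of project SC
-/

open Classical

namespace Pool.Agent.Q237.SC

open Pool.Agent.Q18.SC

universe u

lemma asy {τ : ℝ} (hτ : 0 < τ) : ∃ n₀ : ℕ, ∀ n : ℕ, n₀ ≤ n →
    τ * n / 16 ≤ (⌊Real.sqrt (τ * n) / 2⌋₊ : ℝ) ^ 2 ∧
    (((n : ℝ) ^ ⌊Real.sqrt (τ * n) / 2⌋₊) ^ 4) ≤ (2 : ℝ) ^ (τ ^ 2 / 256 * n) := by
  have hl : 0 < Real.log 2 := Real.log_pos (by norm_num)
  have hc : 0 < τ ^ 2 * Real.log 2 / (512 * Real.sqrt τ) := by positivity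
  have h1 := (isLittleO_log_rpow_atTop (r := 1 / 2) (by norm_num)).bound hc
  rw [Filter.eventually_atTop] at h1
  obtain ⟨A, hA⟩ := h1
  obtain ⟨n₁, hn₁⟩ := exists_nat_ge (max A (max 1 (16 / τ)))
  refine ⟨n₁, fun n hn => ?_⟩
  have hn1 : max A (max 1 (16 / τ)) ≤ (n : ℝ) := hn₁.trans (by exact_mod_cast hn)
  have hnA : A ≤ n := (le_max_left _ _).trans hn1
  have hn2 : (1 : ℝ) ≤ n := (le_max_left _ _).trans ((le_max_right _ _).trans hn1)
  have hn3 : 16 / τ ≤ (n : ℝ) := (le_max_right _ _).trans ((le_max_right _ _).trans hn1)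
  have hn0 : (0 : ℝ) < n := by linarith
  have h16 : 16 ≤ τ * n := by
    rw [div_le_iff₀ hτ] at hn3
    linarith
  obtain ⟨k, hk⟩ : ∃ k, k = ⌊Real.sqrt (τ * n) / 2⌋₊ := ⟨_, rfl⟩
  rw [← hk]
  have hs4 : 4 ≤ Real.sqrt (τ * n) := by
    rw [show (4 : ℝ) = Real.sqrt 16 by
      rw [show (16 : ℝ) = 4 ^ 2 by norm_num, Real.sqrt_sq (by norm_num)]]
    exact Real.sqrt_le_sqrt h16
  have hk1 : (k : ℝ) ≤ Real.sqrt (τ * n) / 2 := by
    rw [hk]
    exact Nat.floor_le (by positivity)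
  have hk2 : Real.sqrt (τ * n) / 2 < k + 1 := by
    rw [hk]
    exact Nat.lt_floor_add_one _
  have hsq : Real.sqrt (τ * n) ^ 2 = τ * n := Real.sq_sqrt (by positivity)
  constructor
  · have h2 : Real.sqrt (τ * n) / 4 ≤ k := by linarith
    calc τ * n / 16 = (Real.sqrt (τ * n) / 4) ^ 2 := by rw [div_pow, hsq]; norm_num
      _ ≤ _ := by gcongr
  · have h2 := hA n hnA
    rw [Real.norm_eq_abs, Real.norm_eq_abs] at h2
    have h3 : Real.log n ≤ τ ^ 2 * Real.log 2 / (512 * Real.sqrt τ) * Real.sqrt n := by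
      refine (le_abs_self _).trans (h2.trans (le_of_eq ?_))
      rw [← Real.sqrt_eq_rpow, abs_of_nonneg (Real.sqrt_nonneg _)]
    have h4 : ((n : ℝ) ^ k) ^ 4 = Real.exp (4 * k * Real.log n) := by
      rw [← pow_mul, ← Real.rpow_natCast, Real.rpow_def_of_pos hn0]
      congr 1
      push_cast
      ring
    rw [h4, Real.rpow_def_of_pos (by norm_num)]
    apply Real.exp_le_exp.2
    have hlog : 0 ≤ Real.log n := Real.log_nonneg hn2
    have hsτ : 0 < Real.sqrt τ := Real.sqrt_pos.2 hτ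
    have hsn : Real.sqrt (τ * n) = Real.sqrt τ * Real.sqrt n := Real.sqrt_mul hτ.le _
    have hnn : Real.sqrt n * Real.sqrt n = n := Real.mul_self_sqrt hn0.le
    calc 4 * k * Real.log n ≤ 4 * (Real.sqrt (τ * n) / 2) * Real.log n := by gcongr
      _ ≤ 4 * (Real.sqrt (τ * n) / 2) * (τ ^ 2 * Real.log 2 / (512 * Real.sqrt τ) * Real.sqrt n) := by gcongr
      _ = τ ^ 2 * Real.log 2 / 256 * (Real.sqrt n * Real.sqrt n) := by
          rw [hsn]
          field_simp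
          ring
      _ = _ := by rw [hnn]; ring
      _ ≤ _ := le_refl _

/-- JOB UNI -/
theorem uni (h1 : S_SMP.{u}) : S_UNI.{u} := by
  intro τ hτ
  obtain ⟨n₀, hn₀⟩ := asy hτ
  refine ⟨τ ^ 2 / 256, by positivity, n₀, fun G _ _ hG => ?_⟩
  obtain ⟨n, hn⟩ : ∃ n, n = Fintype.card G := ⟨_, rfl⟩
  rw [← hn] at hG ⊢
  obtain ⟨hk1, hk2⟩ := hn₀ n hG
  obtain ⟨k, hk⟩ : ∃ k, k = ⌊Real.sqrt (τ * n) / 2⌋₊ := ⟨_, rfl⟩
  rw [← hk] at hk1 hk2
  have hn0 : (0 : ℝ) ≤ n := Nat.cast_nonneg n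
  have hkle : 4 * (k : ℝ) ^ 2 ≤ τ * n := by
    have h2 : (k : ℝ) ≤ Real.sqrt (τ * n) / 2 := by
      rw [hk]
      exact Nat.floor_le (by positivity)
    have h3 : (k : ℝ) ^ 2 ≤ (Real.sqrt (τ * n) / 2) ^ 2 := by gcongr
    rw [div_pow, Real.sq_sqrt (by positivity)] at h3
    linarith
  let a : (Fin k → G) → (Fin k → G) → Fin k × Fin k → Cls G := fun x y p => q (y p.2 * (x p.1)⁻¹)
  let P : ((Fin k → G) × (Fin k → G)) × ((Fin k → G) × (Fin k → G)) → Finset (Fin k × Fin k) := fun φ =>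
    Finset.univ.filter fun p => a φ.1.1 φ.1.2 p ≠ a φ.2.1 φ.2.2 p
  let F : ((Fin k → G) × (Fin k → G)) × ((Fin k → G) × (Fin k → G)) → Finset (Cls G → Bool) := fun φ =>
    if τ / 2 * (k : ℝ) ^ 2 ≤ (((P φ).image (a φ.1.1 φ.1.2)).card : ℝ) then
      Finset.univ.filter (fun b : Cls G → Bool => ∀ p ∈ P φ, b (a φ.1.1 φ.1.2 p) = b (a φ.2.1 φ.2.2 p)) else ∅
  have hF : ∀ φ, ((F φ).card : ℝ) ≤ (2 : ℝ) ^ (-(τ ^ 2 / 128 * n)) * (2 : ℝ) ^ (Fintype.card (Cls G)) := by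
    intro φ
    by_cases hφ : τ / 2 * (k : ℝ) ^ 2 ≤ (((P φ).image (a φ.1.1 φ.1.2)).card : ℝ)
    · have h2 : F φ = Finset.univ.filter (fun b : Cls G → Bool => ∀ p ∈ P φ, b (a φ.1.1 φ.1.2 p) = b (a φ.2.1 φ.2.2 p)) :=
        if_pos hφ
      rw [h2]
      have h3 := gen1 (P φ) (a φ.1.1 φ.1.2) (a φ.2.1 φ.2.2) (fun p hp => (Finset.mem_filter.1 hp).2)
        (Finset.univ.filter (fun b : Cls G → Bool => ∀ p ∈ P φ, b (a φ.1.1 φ.1.2 p) = b (a φ.2.1 φ.2.2 p)))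
        (fun b hb p hp => (Finset.mem_filter.1 hb).2 p hp)
      refine h3.trans ?_
      refine mul_le_mul_of_nonneg_right (Real.rpow_le_rpow_of_exponent_le (by norm_num) ?_) (by positivity)
      have h4 : τ * (τ * n / 16) ≤ τ * (k : ℝ) ^ 2 := by gcongr
      have h5 : τ * (τ * n / 16) = τ ^ 2 * n / 16 := by ring
      linarith
    · have h2 : F φ = ∅ := if_neg hφ
      rw [h2, Finset.card_empty]
      push_cast
      positivity
  have hsub : (Finset.univ.filter (fun b : Cls G → Bool => ∃ α β : G → G,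
      (∀ x y : G, b (q (y * x⁻¹)) = b (q (β y * (α x)⁻¹))) ∧
      τ * (n : ℝ) ^ 2 ≤
        ((Finset.univ.filter (fun p : G × G =>
          q (p.2 * p.1⁻¹) ≠ q (β p.2 * (α p.1)⁻¹))).card : ℝ))) ⊆ Finset.univ.biUnion F := by
    intro b hb
    rw [Finset.mem_filter] at hb
    obtain ⟨_, α, β, hαβ, hT⟩ := hb
    obtain ⟨x, y, hxy⟩ := h1 G (Finset.univ.filter (fun p : G × G => q (p.2 * p.1⁻¹) ≠ q (β p.2 * (α p.1)⁻¹)))
      τ k hτ (by rw [← hn]; exact hT) (by rw [← hn]; exact hkle)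
    rw [Finset.mem_biUnion]
    refine ⟨((x, y), (fun i => α (x i), fun j => β (y j))), Finset.mem_univ _, ?_⟩
    have hP : P ((x, y), (fun i => α (x i), fun j => β (y j))) =
        Finset.univ.filter (fun p : Fin k × Fin k => (x p.1, y p.2) ∈
          Finset.univ.filter (fun p : G × G => q (p.2 * p.1⁻¹) ≠ q (β p.2 * (α p.1)⁻¹))) := by
      ext p
      simp only [P, a, Finset.mem_filter, Finset.mem_univ, true_and]
    have h2 : τ / 2 * (k : ℝ) ^ 2 ≤ (((P ((x, y), (fun i => α (x i), fun j => β (y j)))).image (a x y)).card : ℝ) := by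
      rw [hP]
      exact hxy
    have h3 : F ((x, y), (fun i => α (x i), fun j => β (y j))) =
        Finset.univ.filter (fun b : Cls G → Bool => ∀ p ∈ P ((x, y), (fun i => α (x i), fun j => β (y j))),
          b (a x y p) = b (a (fun i => α (x i)) (fun j => β (y j)) p)) := if_pos h2
    rw [h3, Finset.mem_filter]
    exact ⟨Finset.mem_univ _, fun p _ => hαβ _ _⟩
  calc _ ≤ ((Finset.univ.biUnion F).card : ℝ) := by exact_mod_cast Finset.card_le_card hsub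
    _ ≤ ((∑ φ, (F φ).card : ℕ) : ℝ) := by exact_mod_cast Finset.card_biUnion_le
    _ = ∑ φ, ((F φ).card : ℝ) := by push_cast; rfl
    _ ≤ ∑ _φ : ((Fin k → G) × (Fin k → G)) × ((Fin k → G) × (Fin k → G)),
        ((2 : ℝ) ^ (-(τ ^ 2 / 128 * n)) * (2 : ℝ) ^ (Fintype.card (Cls G))) := Finset.sum_le_sum fun φ _ => hF φ
    _ = ((n : ℝ) ^ k) ^ 4 * ((2 : ℝ) ^ (-(τ ^ 2 / 128 * n)) * (2 : ℝ) ^ (Fintype.card (Cls G))) := by
        rw [Finset.sum_const, Finset.card_univ, nsmul_eq_mul]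
        simp only [Fintype.card_prod, Fintype.card_fun, Fintype.card_fin]
        rw [← hn]
        push_cast
        ring
    _ ≤ (2 : ℝ) ^ (τ ^ 2 / 256 * n) * ((2 : ℝ) ^ (-(τ ^ 2 / 128 * n)) * (2 : ℝ) ^ (Fintype.card (Cls G))) := by
        gcongr
    _ = (2 : ℝ) ^ (τ ^ 2 / 256 * n + -(τ ^ 2 / 128 * n)) * (2 : ℝ) ^ (Fintype.card (Cls G)) := by
        rw [Real.rpow_add (by norm_num)]
        ring
    _ = _ := by
        congr 2
        ring

end Pool.Agent.Q237.SC
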